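import Pool.Agent.Y817.BC.Stm

set_option autoImplicit false

/-!
# BC-FIN: slopes and displacements of iterated insertions
-/

namespace Pool.Agent.Y383.BC.Fin

open Pool.Agent.Y817.BC

/-- the sum of the slopes -/
noncomputable def A (p : Par) (j : ℕ) : ℝ :=
  ∑ k ∈ Finset.range j, 7 ^ k * ((p.P k : ℝ) / p.ρ k)

theorem A_succ (p : Par) (j : ℕ) : A p (j + 1) = A p j + 7 ^ j * ((p.P j : ℝ) / p.ρ j) := by
  unfold A
  rw [Finset.sum_range_succ]

variable {L : Type} {p : Par} {T : G → L}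

theorem rho_pos (hg : p.Good T) (k : ℕ) : 0 < p.ρ k := by
  have h1 := hg.P_le k
  have h2 := hg.P_pos k
  have h3 : 0 < 32 * 14 ^ k * p.P k := by positivity
  omega

theorem term_le (hg : p.Good T) (k : ℕ) :
    (7 : ℝ) ^ k * ((p.P k : ℝ) / p.ρ k) ≤ 1 / 32 * (1 / 2) ^ k := by
  have h1 : (0 : ℝ) < p.ρ k := by exact_mod_cast rho_pos hg k
  have h2 : (32 : ℝ) * 14 ^ k * p.P k ≤ p.ρ k := by exact_mod_cast hg.P_le k
  have h3 : (p.P k : ℝ) / p.ρ k ≤ 1 / (32 * 14 ^ k) := by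
    rw [div_le_div_iff₀ h1 (by positivity)]
    linarith
  calc (7 : ℝ) ^ k * ((p.P k : ℝ) / p.ρ k) ≤ 7 ^ k * (1 / (32 * 14 ^ k)) := by gcongr
    _ = 1 / 32 * (1 / 2) ^ k := by
        rw [show (14 : ℝ) = 7 * 2 by norm_num, mul_pow, one_div_pow]
        field_simp

theorem A_nonneg (p : Par) (j : ℕ) : 0 ≤ A p j := by
  unfold A
  positivity

theorem A_le (hg : p.Good T) (j : ℕ) : A p j ≤ 1 / 16 := by
  have h : A p j ≤ 1 / 16 * (1 - (1 / 2) ^ j) := by
    induction j with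
    | zero => simp [A]
    | succ j ih =>
      rw [A_succ]
      have := term_le hg j
      rw [pow_succ]
      linarith
  have h2 : (0 : ℝ) ≤ (1 / 2) ^ j := by positivity
  linarith

theorem slope_mono {s s' : ℝ} {w : G → Fin 3 → ℝ} (h : s ≤ s') (hs : Slope s w) : Slope s' w :=
  fun x i j => (hs x i j).trans h

theorem slope_W (h : StmSlope) (hg : p.Good T) {E : ℕ → G → Prop} (hD : ∀ k, Disc (p.ρ k) (E k))
    (j : ℕ) : ∀ (w : G → Fin 3 → ℝ) (s : ℝ), 0 ≤ s → Slope s w →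
      Slope (7 ^ j * s + A p j) (W p E j w) := by
  induction j with
  | zero =>
    intro w s _ hw
    have : (7 : ℝ) ^ 0 * s + A p 0 = s := by simp [A]
    rw [this]
    exact hw
  | succ j ih =>
    intro w s hs hw
    have h1 := (h (p.I j) (p.ρ j) (p.P j) (E j) w s (hg.P_pos j) (rho_pos hg j) (hg.I_le j) (hD j)
      hs hw).1
    have h2 := ih _ _ (by positivity) h1
    have h3 : (7 : ℝ) ^ (j + 1) * s + A p (j + 1) =
        7 ^ j * (7 * s + (p.P j : ℝ) / p.ρ j) + A p j := by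
      rw [A_succ, pow_succ]
      ring
    rw [h3]
    exact h2

theorem disp_W (h : StmSlope) (hg : p.Good T) {E : ℕ → G → Prop} (hD : ∀ k, Disc (p.ρ k) (E k))
    (j : ℕ) : ∀ (w : G → Fin 3 → ℝ) (s : ℝ), 0 ≤ s → Slope s w → 7 ^ j * s + A p j ≤ 1 / 16 →
      ∀ x i, |W p E j w x i - w x i| ≤ p.S j := by
  induction j with
  | zero =>
    intro w s _ _ _ x i
    simp [W, Par.S]
  | succ j ih =>
    intro w s hs hw hb x i
    have h0 := h (p.I j) (p.ρ j) (p.P j) (E j) w s (hg.P_pos j) (rho_pos hg j) (hg.I_le j) (hD j)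
      hs hw
    have h3 : (7 : ℝ) ^ (j + 1) * s + A p (j + 1) =
        7 ^ j * (7 * s + (p.P j : ℝ) / p.ρ j) + A p j := by
      rw [A_succ, pow_succ]
      ring
    have h2 := ih (ins (p.I j) (p.ρ j) (p.P j) (E j) w) (7 * s + (p.P j : ℝ) / p.ρ j)
      (by positivity) h0.1 (by rw [← h3]; exact hb) x i
    have h4 := h0.2 x i
    have hA := A_nonneg p (j + 1)
    have hs16 : s ≤ 1 / 16 := by
      have h5 : (1 : ℝ) ≤ 7 ^ (j + 1) := one_le_pow₀ (by norm_num)
      nlinarith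
    have hS : (p.S (j + 1) : ℝ) = p.S j + (p.P j + p.ρ j) := by
      unfold Par.S
      rw [Finset.sum_range_succ]
      push_cast
      ring
    have h6 : (p.P j : ℝ) / 2 + 3 * s * p.ρ j ≤ p.P j + p.ρ j := by
      have h7 : (0 : ℝ) ≤ p.ρ j := by positivity
      have h8 : (0 : ℝ) ≤ p.P j := by positivity
      nlinarith
    have h9 : W p E (j + 1) w = W p E j (ins (p.I j) (p.ρ j) (p.P j) (E j) w) := rfl
    rw [h9, hS]
    calc |W p E j (ins (p.I j) (p.ρ j) (p.P j) (E j) w) x i - w x i|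
        ≤ |W p E j (ins (p.I j) (p.ρ j) (p.P j) (E j) w) x i -
            ins (p.I j) (p.ρ j) (p.P j) (E j) w x i| +
          |ins (p.I j) (p.ρ j) (p.P j) (E j) w x i - w x i| := abs_sub_le _ _ _
      _ ≤ p.S j + (p.P j + p.ρ j) := by linarith

theorem t (h : StmSlope) : StmFin := by
  intro L T p hg E hD j c
  have h0 : Slope 0 (fun _ i => (c i : ℝ)) := by
    intro x i j
    simp
  refine ⟨?_, ?_⟩
  · have h1 := slope_W h hg hD j _ 0 le_rfl h0
    refine slope_mono ?_ h1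
    have := A_le hg j
    linarith
  · have h2 := disp_W h hg hD j _ 0 le_rfl h0 (by
      have := A_le hg j
      linarith)
    exact h2

end Pool.Agent.Y383.BC.Fin
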