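import Pool.Agent.Y383.BC.LocA

set_option autoImplicit false

/-!
# BC-LOCB: the effect of an insertion
-/

namespace Pool.Agent.Y383.BC.LocB

open Pool.Agent.Y817.BC Pool.Agent.Y383.BC.LocA

theorem eta_one {I ρ n : ℕ} (hI : I < ρ) (hn : n ≤ I) : eta I ρ n = 1 := by
  unfold eta
  have h1 : (0 : ℝ) < (ρ : ℝ) - I := by
    have : (I : ℝ) < ρ := by exact_mod_cast hI
    linarith
  have h2 : (1 : ℝ) ≤ ((ρ : ℝ) - n) / ((ρ : ℝ) - I) := by
    rw [le_div_iff₀ h1]
    have : (n : ℝ) ≤ I := by exact_mod_cast hn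
    linarith
  rw [min_eq_left h2, max_eq_right zero_le_one]

theorem t (h : StmLocA) : StmLocB := by
  intro p E hP hdvd hI hD j
  have hdvd2 : ∀ k l, k ≤ l → p.P k ∣ p.P l := by
    intro k l hkl
    induction l, hkl using Nat.le_induction with
    | base => exact dvd_rfl
    | succ l _ ih => exact ih.trans (hdvd l)
  induction j with
  | zero => intro k c w hk; omega
  | succ j ih =>
    intro k c w hk hc
    rcases Nat.lt_succ_iff_lt_or_eq.1 hk with hk' | hk'
    · exact ih k c (ins (p.I j) (p.ρ j) (p.P j) (E j) w) hk' hc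
    · subst hk'
      refine ⟨fun i => (p.P k : ℤ) * round ((w c i - c i) / p.P k), fun i => dvd_mul_right _ _, ?_⟩
      intro x hx i
      refine (h p E E hP hD hD).1 k (fun _ i => (c i : ℝ))
        (ins (p.I k) (p.ρ k) (p.P k) (E k) w) x
        (fun i => (p.P k : ℤ) * round ((w c i - c i) / p.P k)) ?_ (fun _ _ _ _ => Iff.rfl) ?_ i
      · intro l hl i
        exact Dvd.dvd.mul_right (Int.natCast_dvd_natCast.2 (hdvd2 l k hl.le)) _
      · intro y hy i
        have h1 : nn (y - c) ≤ p.I k := by
          have := nn_tri y x c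
          omega
        have h2 := hI k
        rw [ins_of_center (hD k) hc (by omega), eta_one h2 h1]
        unfold tgt
        push_cast
        ring

end Pool.Agent.Y383.BC.LocB
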