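import Pool.Agent.Y817.BC.Stm

set_option autoImplicit false

/-!
# BC-LOCA: locality and equivariance of iterated insertion
-/

namespace Pool.Agent.Y383.BC.LocA

open Pool.Agent.Y817.BC

theorem nn_le {v : G} {m : ℕ} : nn v ≤ m ↔ ∀ i, (v i).natAbs ≤ m := by
  unfold nn
  rw [Finset.sup_le_iff]
  simp

theorem natAbs_le_nn (v : G) (i : Fin 3) : (v i).natAbs ≤ nn v := nn_le.1 le_rfl i

theorem nn_neg (v : G) : nn (-v) = nn v := by
  unfold nn
  simp

theorem nn_sub_comm (v w : G) : nn (v - w) = nn (w - v) := by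
  rw [← nn_neg, neg_sub]

theorem nn_add_le (v w : G) : nn (v + w) ≤ nn v + nn w := by
  rw [nn_le]
  intro i
  exact (Int.natAbs_add_le _ _).trans (add_le_add (natAbs_le_nn v i) (natAbs_le_nn w i))

theorem nn_tri (a b c : G) : nn (a - c) ≤ nn (a - b) + nn (b - c) := by
  have h : a - c = (a - b) + (b - c) := by abel
  rw [h]
  exact nn_add_le _ _

theorem nn_zero : nn (0 : G) = 0 := by
  unfold nn
  simp

theorem ins_of_center {I ρ P : ℕ} {E : G → Prop} {w : G → Fin 3 → ℝ} {c x : G} (hD : Disc ρ E)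
    (hc : E c) (hx : nn (x - c) ≤ ρ) (j : Fin 3) :
    ins I ρ P E w x j = w x j + eta I ρ (nn (x - c)) * (tgt P w c j - w x j) := by
  have h : ∃ c, E c ∧ nn (x - c) ≤ ρ := ⟨c, hc, hx⟩
  unfold ins
  rw [dif_pos h]
  have h1 := h.choose_spec
  have h2 : h.choose = c := by
    refine hD _ _ h1.1 hc ?_
    have h3 := nn_tri h.choose x c
    have h4 := h1.2
    rw [nn_sub_comm] at h4
    omega
  rw [h2]

theorem ins_of_none {I ρ P : ℕ} {E : G → Prop} {w : G → Fin 3 → ℝ} {x : G}
    (h : ¬ ∃ c, E c ∧ nn (x - c) ≤ ρ) (j : Fin 3) : ins I ρ P E w x j = w x j := by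
  unfold ins
  rw [dif_neg h]

theorem tgt_add {P : ℕ} (hP : 0 < P) {w w' : G → Fin 3 → ℝ} {c : G} {lam : Fin 3 → ℤ}
    (hl : ∀ i, (P : ℤ) ∣ lam i) (hw : ∀ i, w' c i = w c i + lam i) (j : Fin 3) :
    tgt P w' c j = tgt P w c j + lam j := by
  unfold tgt
  obtain ⟨m, hm⟩ := hl j
  have hP' : (P : ℝ) ≠ 0 := by positivity
  have h1 : (w' c j - c j) / P = (w c j - c j) / P + (m : ℤ) := by
    rw [hw j, hm]
    push_cast
    field_simp
    ring
  rw [h1, round_add_intCast, hm]
  push_cast
  ring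

theorem ins_add {I ρ P : ℕ} (hP : 0 < P) {E E' : G → Prop} (hD : Disc ρ E) (hD' : Disc ρ E')
    {w w' : G → Fin 3 → ℝ} {y : G} {lam : Fin 3 → ℤ} (hl : ∀ i, (P : ℤ) ∣ lam i)
    (hE : ∀ c, nn (c - y) ≤ ρ → (E c ↔ E' c))
    (hw : ∀ z, nn (z - y) ≤ ρ → ∀ i, w' z i = w z i + lam i) (i : Fin 3) :
    ins I ρ P E' w' y i = ins I ρ P E w y i + lam i := by
  have hy : ∀ i, w' y i = w y i + lam i := hw y (by rw [sub_self, nn_zero]; exact Nat.zero_le _)
  by_cases h : ∃ c, E c ∧ nn (y - c) ≤ ρ
  · obtain ⟨c, hc, hyc⟩ := h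
    have hcy : nn (c - y) ≤ ρ := by rw [nn_sub_comm]; exact hyc
    rw [ins_of_center hD hc hyc, ins_of_center hD' ((hE c hcy).1 hc) hyc,
      tgt_add hP hl (hw c hcy), hy i]
    ring
  · have h' : ¬ ∃ c, E' c ∧ nn (y - c) ≤ ρ := by
      rintro ⟨c, hc, hyc⟩
      exact h ⟨c, (hE c (by rw [nn_sub_comm]; exact hyc)).2 hc, hyc⟩
    rw [ins_of_none h, ins_of_none h', hy i]

theorem ins_shift {I ρ P : ℕ} {E : G → Prop} (hD : Disc ρ E) (g : G) (w : G → Fin 3 → ℝ)
    (x : G) (i : Fin 3) :
    ins I ρ P (fun c => E (c + g)) (fun y i => w (y + g) i - g i) x i =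
      ins I ρ P E w (x + g) i - g i := by
  have hD2 : Disc ρ (fun c => E (c + g)) := by
    intro c c' hc hc' h
    have h1 := hD (c + g) (c' + g) hc hc' (by
      rw [show c + g - (c' + g) = c - c' by abel]; exact h)
    exact add_right_cancel h1
  by_cases h : ∃ c, E c ∧ nn (x + g - c) ≤ ρ
  · obtain ⟨c, hc, hxc⟩ := h
    have hxc' : nn (x - (c - g)) ≤ ρ := by
      rw [show x - (c - g) = x + g - c by abel]; exact hxc
    have hc' : (fun c => E (c + g)) (c - g) := by
      show E (c - g + g)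
      rw [sub_add_cancel]
      exact hc
    rw [ins_of_center hD hc hxc, ins_of_center hD2 hc' hxc']
    rw [show x - (c - g) = x + g - c by abel]
    have ht : tgt P (fun y i => w (y + g) i - g i) (c - g) i = tgt P w c i - g i := by
      unfold tgt
      show (((c - g) i : ℤ) : ℝ) + P * ((round ((w (c - g + g) i - (g i : ℝ) -
        (((c - g) i : ℤ) : ℝ)) / P) : ℤ) : ℝ) = _
      rw [sub_add_cancel]
      have h1 : (w c i - (g i : ℝ) - (((c - g) i : ℤ) : ℝ)) = w c i - c i := by
        simp only [Pi.sub_apply]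
        push_cast
        ring
      rw [h1]
      simp only [Pi.sub_apply]
      push_cast
      ring
    rw [ht]
    ring
  · have h' : ¬ ∃ c, (fun c => E (c + g)) c ∧ nn (x - c) ≤ ρ := by
      rintro ⟨c, hc, hxc⟩
      exact h ⟨c + g, hc, by rw [show x + g - (c + g) = x - c by abel]; exact hxc⟩
    rw [ins_of_none h, ins_of_none h']

theorem t : StmLocA := by
  intro p E E' hP hD hD'
  refine ⟨?_, ?_⟩
  · intro j
    induction j with
    | zero =>
      intro w w' x lam _ _ hw i
      exact hw x (by rw [sub_self, nn_zero]; exact Nat.zero_le _) i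
    | succ j ih =>
      intro w w' x lam hl hE hw i
      have hR : p.R (j + 1) = p.R j + p.ρ j := by
        unfold Par.R
        rw [Finset.sum_range_succ]
      refine ih (ins (p.I j) (p.ρ j) (p.P j) (E j) w) (ins (p.I j) (p.ρ j) (p.P j) (E' j) w') x lam
        (fun k hk => hl k (by omega)) (fun k hk c hc => hE k (by omega) c (by omega)) ?_ i
      intro y hy i
      refine ins_add (hP j) (hD j) (hD' j) (hl j (by omega)) ?_ ?_ i
      · intro c hc
        refine hE j (by omega) c ?_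
        have := nn_tri c y x
        omega
      · intro z hz
        refine hw z ?_
        have := nn_tri z y x
        omega
  · intro g j
    induction j with
    | zero => intro w x i; rfl
    | succ j ih =>
      intro w x i
      show W p (fun k c => E k (c + g)) j (ins (p.I j) (p.ρ j) (p.P j) (fun c => E j (c + g))
        (fun y i => w (y + g) i - g i)) x i =
        W p E j (ins (p.I j) (p.ρ j) (p.P j) (E j) w) (x + g) i - g i
      rw [← ih (ins (p.I j) (p.ρ j) (p.P j) (E j) w) x i]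
      congr 1
      funext y i
      exact ins_shift (hD j) g w y i

end Pool.Agent.Y383.BC.LocA
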